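import Pool.Agent.Y215.CT.All

/-!
# Lower bounds for the moments of the class groups of imaginary quadratic fields, cyclic groups

For an odd prime `p` and `k ≥ 2` the sum of the number of surjections of the `p`-primary part of the
class group onto `ℤ / p ^ k`, over the imaginary quadratic fields `K` with `|disc K| ≤ X`, is at
least `c X ^ (1 / 2 + 2 / p ^ k) / (log X) ^ 5`.
-/

set_option autoImplicit false

namespace Pool.Agent.Results.MP_0f260b_nt.CyclicMoments

open NumberField Pool.Agent.Y215.CT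

/-- For every odd prime `p` and every `k ≥ 2` there are `c > 0` and `X0` such that for all real
`X ≥ X0` the sum of `#Sur(Cl(K)[p^∞], ℤ / p ^ k)` over the set `ImQuad X` of the imaginary quadratic
fields `K ⊂ ℂ` with `|disc K| ≤ X` is at least `c X ^ (1 / 2 + 2 / p ^ k) / (log X) ^ 5`. -/
theorem result (p k : ℕ) (hp : p.Prime) (hp2 : p ≠ 2) (hk : 2 ≤ k) :
    ∃ c : ℝ, 0 < c ∧ ∃ X0 : ℝ, ∀ X : ℝ, X0 ≤ X →
      c * X ^ (1 / 2 + 2 / (p : ℝ) ^ k : ℝ) / Real.log X ^ 5 ≤
        ∑ᶠ K ∈ ImQuad X, (Nat.card {φ : (Subgroup.closure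
          {x : ClassGroup (𝓞 K) | ∃ n : ℕ, x ^ p ^ n = 1}) →* Multiplicative (ZMod (p ^ k)) //
          Function.Surjective φ} : ℝ) := by
  have h3 : 3 ≤ p := by
    have := hp.two_le
    omega
  have h9 : 9 ≤ p ^ k := by
    calc 9 = 3 ^ 2 := by norm_num
      _ ≤ p ^ 2 := Nat.pow_le_pow_left h3 2
      _ ≤ p ^ k := Nat.pow_le_pow_right (by omega) hk
  obtain ⟨c, hc, X0, h⟩ := moments_all p k hp hp2 (by omega) (by omega)
  refine ⟨c, hc, X0, fun X hX => ?_⟩
  have h1 := h X hX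
  have h2 : min (1 / 4) (2 / ((p ^ k : ℕ) : ℝ)) = 2 / (p : ℝ) ^ k := by
    rw [Nat.cast_pow]
    apply min_eq_right
    have h9' : (9 : ℝ) ≤ (p : ℝ) ^ k := by exact_mod_cast h9
    rw [div_le_div_iff₀ (by positivity) (by norm_num)]
    linarith
  rw [h2] at h1
  exact h1

end Pool.Agent.Results.MP_0f260b_nt.CyclicMoments
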