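import Pool.Agent.Y159.HM.Mix

set_option autoImplicit false

/-!
# Upper bounds for the `H`-moments of the class groups of quadratic fields

For every finite abelian `p`-group `G ≅ ∏ ℤ / p ^ (a i)` the sum of the numbers of surjections from
`Cl(K)[p^∞]` to `G` over the quadratic fields `K` (imaginary or real) with discriminant in an interval is
bounded by a power of `X` which is smaller than the trivial one.
-/

namespace Pool.Agent.Results.MP_0f260b_nt.SurjectionMoments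

open NumberField

/-- The number of surjective homomorphisms from the `p`-primary part of the class group of `K` to `G`. -/
noncomputable def sur (p : ℕ) [Fact p.Prime] (G : Type) [CommGroup G] (K : Type) [Field K]
    [NumberField K] : ℝ :=
  Nat.card {φ : CommGroup.primaryComponent (ClassGroup (𝓞 K)) p →* G // Function.Surjective φ}

/-- `K` is a quadratic field of discriminant `D`. -/
def IsQuad (D : ℤ) (K : Type) [Field K] [NumberField K] : Prop :=
  Module.finrank ℚ K = 2 ∧ NumberField.discr K = D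

/-- `C X ^ ε H ∏_i (√X / (H √X) ^ (1 / (p ^ (a i) + r)))`. -/
noncomputable def short (p r : ℕ) (a : Fin r → ℕ) (ε C X H : ℝ) : ℝ :=
  C * X ^ ε * H * ∏ i, (√X / (H * √X) ^ (1 / ((p : ℝ) ^ a i + r)))

/-- `C X ^ (1 + r / 2 - ∑_i 3 / (2 (p ^ (a i) + r)) + ε)`. -/
noncomputable def long (p r : ℕ) (a : Fin r → ℕ) (ε C X : ℝ) : ℝ :=
  C * X ^ (1 + (r : ℝ) / 2 - ∑ i, 3 / (2 * ((p : ℝ) ^ a i + r)) + ε)

/-- Let `p` be a prime and let `G` be a finite abelian `p`-group, `G ≅ ∏_{i < r} ℤ / p ^ (a i)`, `r ≥ 1`,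
and let `ε > 0`.  There is a constant `C` such that, with
`sur D = #{surjective homomorphisms Cl(K_D)[p^∞] → G}`:

* for all real numbers `1 ≤ H ≤ X` with `(H √X) ^ (3 r / (p ^ (a i) + r)) ≤ H` for all `i`, and all
  quadratic fields `K_D` (real or imaginary) of discriminant `D`, where `D` runs through a finite set `S`
  with `X ≤ |D| ≤ X + H`,
  `∑_{D ∈ S} sur D ≤ C X ^ ε H ∏_i (√X / (H √X) ^ (1 / (p ^ (a i) + r)))`;
* if `7 r ≤ 2 p ^ (a i)` for all `i`, then for `X ≥ 1` and quadratic fields with `|D| ≤ X`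
  `∑_{D ∈ S} sur D ≤ C X ^ (1 + r / 2 - ∑_i 3 / (2 (p ^ (a i) + r)) + ε)`. -/
theorem result (p : ℕ) [Fact p.Prime] (r : ℕ) (hr : 1 ≤ r) (a : Fin r → ℕ) (G : Type) [CommGroup G]
    (e : G ≃* ((i : Fin r) → Multiplicative (ZMod (p ^ a i)))) (ε : ℝ) (hε : 0 < ε) :
    ∃ C : ℝ, 0 < C ∧
    (∀ X H : ℝ, 1 ≤ H → H ≤ X →
      (∀ i, (H * √X) ^ (3 * (r : ℝ) / ((p : ℝ) ^ a i + r)) ≤ H) →
      ∀ (S : Finset ℤ) (K : ℤ → Type) [∀ D, Field (K D)] [∀ D, NumberField (K D)],
      (∀ D ∈ S, (X ≤ |(D : ℝ)| ∧ |(D : ℝ)| ≤ X + H) ∧ IsQuad D (K D)) →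
      ∑ D ∈ S, sur p G (K D) ≤ short p r a ε C X H) ∧
    ((∀ i, 7 * r ≤ 2 * p ^ a i) → ∀ X : ℝ, 1 ≤ X →
      ∀ (S : Finset ℤ) (K : ℤ → Type) [∀ D, Field (K D)] [∀ D, NumberField (K D)],
      (∀ D ∈ S, |(D : ℝ)| ≤ X ∧ IsQuad D (K D)) →
      ∑ D ∈ S, sur p G (K D) ≤ long p r a ε C X) := by
  unfold IsQuad sur short long
  obtain ⟨C1, hC1, h1⟩ := Pool.Agent.Y159.HM.mom_short p r hr a G e ε hε
  by_cases hra : ∀ i, 7 * r ≤ 2 * p ^ a i
  · obtain ⟨C2, hC2, h2⟩ := Pool.Agent.Y159.HM.mom_full p r hr a G e hra ε hε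
    refine ⟨max C1 C2, lt_max_of_lt_left hC1, ?_, ?_⟩
    · intro X H hH hHX hc S K _ _ hS
      refine (h1 X H hH hHX hc S K hS).trans ?_
      have hX : 0 < X := by linarith
      have hH0 : 0 < H := by linarith
      have h0 : 0 ≤ X ^ ε * H * ∏ i, (√X / (H * √X) ^ (1 / ((p : ℝ) ^ a i + r))) := by
        have : 0 ≤ ∏ i, (√X / (H * √X) ^ (1 / ((p : ℝ) ^ a i + r))) :=
          Finset.prod_nonneg fun i _ => by positivity
        positivity
      calc C1 * X ^ ε * H * ∏ i, (√X / (H * √X) ^ (1 / ((p : ℝ) ^ a i + r)))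
          = C1 * (X ^ ε * H * ∏ i, (√X / (H * √X) ^ (1 / ((p : ℝ) ^ a i + r)))) := by ring
        _ ≤ max C1 C2 * (X ^ ε * H * ∏ i, (√X / (H * √X) ^ (1 / ((p : ℝ) ^ a i + r)))) := by
            gcongr; exact le_max_left _ _
        _ = _ := by ring
    · intro _ X hX S K _ _ hS
      refine (h2 X hX S K hS).trans ?_
      gcongr
      exact le_max_right _ _
  · exact ⟨C1, hC1, h1, fun h => absurd h hra⟩

end Pool.Agent.Results.MP_0f260b_nt.SurjectionMoments
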